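import Pool.Agent.TH994.CC.Main

set_option autoImplicit false

/-!
The domination hypothesis and the theorem.
-/

namespace Pool.Agent.TH994.CC

open Cardinal Set Order
open scoped Ordinal

/-- every family of `κ⁺⁺⁺` functions `κ⁺ → κ⁺` is dominated, modulo bounded sets, by a family of `κ⁺⁺`
functions `κ⁺ → κ⁺`. -/
def Dominated (κ : Cardinal.{0}) : Prop :=
  ∀ g : Ordinal.{0} → Ordinal.{0} → Ordinal.{0},
    (∀ a < (succ (succ (succ κ))).ord, ∀ ξ < (succ κ).ord, g a ξ < (succ κ).ord) →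
    ∃ h : Ordinal.{0} → Ordinal.{0} → Ordinal.{0},
      (∀ i < (succ (succ κ)).ord, ∀ ξ < (succ κ).ord, h i ξ < (succ κ).ord) ∧
      ∀ a < (succ (succ (succ κ))).ord, ∃ i < (succ (succ κ)).ord, ∃ η < (succ κ).ord,
        ∀ ξ < (succ κ).ord, η ≤ ξ → g a ξ ≤ h i ξ

theorem exists_inj (μ : Cardinal.{0}) (β : Ordinal.{0}) (h : β.card ≤ μ) :
    ∃ e : Ordinal.{0} → Ordinal.{0}, (∀ x < β, e x < μ.ord) ∧
      ∀ x < β, ∀ y < β, e x = e y → x = y := by
  classical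
  have hc : #(Iio β) ≤ #(Iio μ.ord) := by
    rw [mk_Iio_ordinal, mk_Iio_ordinal, card_ord, lift_le]
    exact h
  obtain ⟨φ⟩ := hc
  refine ⟨fun x => if h : x < β then (φ ⟨x, h⟩ : Ordinal) else 0, ?_, ?_⟩
  · intro x hx
    dsimp only
    rw [dif_pos hx]
    exact (φ ⟨x, hx⟩).2
  · intro x hx y hy hxy
    dsimp only at hxy
    rw [dif_pos hx, dif_pos hy] at hxy
    exact congrArg Subtype.val (φ.injective (Subtype.ext hxy))

theorem exists_pair (μ : Cardinal.{0}) (hμ : ℵ₀ ≤ μ) :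
    ∃ (p : Ordinal.{0} → Ordinal.{0} → Ordinal.{0}) (p1 p2 : Ordinal.{0} → Ordinal.{0}),
      (∀ a < μ.ord, ∀ b < μ.ord, p a b < μ.ord ∧ p1 (p a b) = a ∧ p2 (p a b) = b) ∧
      (∀ a, p1 a < μ.ord) ∧ (∀ a, p2 a < μ.ord) := by
  classical
  have h0 : (0 : Ordinal) < μ.ord := by
    rw [lt_ord, Ordinal.card_zero]
    exact lt_of_lt_of_le aleph0_pos hμ
  have hc : #(Iio μ.ord × Iio μ.ord) ≤ #(Iio μ.ord) := by
    rw [mk_prod, Cardinal.lift_id, mk_Iio_ordinal, card_ord]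
    exact (mul_eq_self (by rwa [aleph0_le_lift])).le
  obtain ⟨φ⟩ := hc
  have hne : Nonempty (Iio μ.ord × Iio μ.ord) := ⟨⟨⟨0, h0⟩, ⟨0, h0⟩⟩⟩
  refine ⟨fun a b => if h : a < μ.ord ∧ b < μ.ord then (φ ⟨⟨a, h.1⟩, ⟨b, h.2⟩⟩ : Ordinal) else 0,
    fun c => if h : c < μ.ord then ((Function.invFun φ ⟨c, h⟩).1 : Ordinal) else 0,
    fun c => if h : c < μ.ord then ((Function.invFun φ ⟨c, h⟩).2 : Ordinal) else 0, ?_, ?_, ?_⟩
  · intro a ha b hb
    have h1 : (φ ⟨⟨a, ha⟩, ⟨b, hb⟩⟩ : Ordinal) < μ.ord := (φ ⟨⟨a, ha⟩, ⟨b, hb⟩⟩).2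
    have h2 : Function.invFun φ ⟨(φ ⟨⟨a, ha⟩, ⟨b, hb⟩⟩ : Ordinal), h1⟩ = ⟨⟨a, ha⟩, ⟨b, hb⟩⟩ :=
      Function.leftInverse_invFun φ.injective _
    dsimp only
    simp only [dif_pos (And.intro ha hb), dif_pos h1, h2]
    exact ⟨h1, trivial, trivial⟩
  · intro a
    dsimp only
    split_ifs with h
    · exact (Function.invFun φ ⟨a, h⟩).1.2
    · exact h0
  · intro a
    dsimp only
    split_ifs with h
    · exact (Function.invFun φ ⟨a, h⟩).2.2
    · exact h0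

theorem exists_fincode (μ : Cardinal.{0}) (hμ : ℵ₀ ≤ μ) :
    ∃ (code : Finset Ordinal.{0} → Ordinal.{0}) (dec : Ordinal.{0} → Finset Ordinal.{0}),
      (∀ s, code s < μ.ord) ∧ (∀ s : Finset Ordinal.{0}, (∀ a ∈ s, a < μ.ord) → dec (code s) = s) ∧
      (∀ c, ∀ a ∈ dec c, a < μ.ord) := by
  classical
  have hinf : Infinite (Iio μ.ord) := by
    rw [infinite_iff, mk_Iio_ordinal, card_ord, aleph0_le_lift]
    exact hμ
  obtain ⟨φ⟩ := Cardinal.eq.1 (mk_finset_of_infinite (Iio μ.ord))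
  refine ⟨fun s => (φ (s.subtype (· ∈ Iio μ.ord)) : Ordinal),
    fun c => if h : c < μ.ord then (φ.symm ⟨c, h⟩).map (Function.Embedding.subtype _) else ∅,
    fun s => (φ (s.subtype (· ∈ Iio μ.ord))).2, ?_, ?_⟩
  · intro s hs
    have h1 : (φ (s.subtype (· ∈ Iio μ.ord)) : Ordinal) < μ.ord := (φ (s.subtype (· ∈ Iio μ.ord))).2
    dsimp only
    rw [dif_pos h1]
    have h2 : (⟨(φ (s.subtype (· ∈ Iio μ.ord)) : Ordinal), h1⟩ : Iio μ.ord) =
        φ (s.subtype (· ∈ Iio μ.ord)) := rfl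
    rw [h2, Equiv.symm_apply_apply, Finset.subtype_map, Finset.filter_true_of_mem]
    exact fun a ha => hs a ha
  · intro c a ha
    dsimp only at ha
    split_ifs at ha with h
    · obtain ⟨b, _, rfl⟩ := Finset.mem_map.1 ha
      exact b.2
    · simp at ha

theorem bdd_of_card (ν : Cardinal.{0}) (hν : ℵ₀ ≤ ν) (s : Set Ordinal.{0})
    (hs : #s ≤ Cardinal.lift.{1} ν) (hlt : ∀ a ∈ s, a < (succ ν).ord) :
    ∃ β < (succ ν).ord, ∀ a ∈ s, a < β := by
  have h1 : #s < (Ordinal.lift.{1} (succ ν).ord).cof := by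
    rw [← Ordinal.lift_cof, (isRegular_succ hν).cof_ord]
    exact hs.trans_lt (lift_lt.2 (lt_succ ν))
  refine ⟨sSup ((· + 1) '' s), Ordinal.sSup_add_one_lt_of_lt_cof h1 hlt, fun a ha => ?_⟩
  have hb : BddAbove ((· + 1) '' s) := by
    refine ⟨(succ ν).ord, ?_⟩
    rintro _ ⟨b, hb, rfl⟩
    exact Order.add_one_le_of_lt (hlt b hb)
  have h2 : a + 1 ≤ sSup ((· + 1) '' s) := le_csSup hb ⟨a, ha, rfl⟩
  exact (lt_add_one a).trans_le h2

theorem cover (κ : Cardinal.{0}) (hκ : ℵ₀ ≤ κ) (hD : Dominated κ)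
    (g : Ordinal.{0} → Ordinal.{0} → Ordinal.{0}) :
    ∃ (R N : Ordinal.{0} → Ordinal.{0}) (Φ : Ordinal.{0} → Ordinal.{0} → Set Ordinal.{0}),
      (∀ a, R a < (succ (succ κ)).ord) ∧ (∀ a, N a < (succ κ).ord) ∧
      (∀ i ξ, #(Φ i ξ) ≤ Cardinal.lift.{1} κ) ∧
      ∀ a < (succ (succ (succ κ))).ord, ∀ ξ < (succ κ).ord, N a ≤ ξ →
        g a ξ < (succ (succ κ)).ord → g a ξ ∈ Φ (R a) ξ := by
  classical
  have hκ1 : ℵ₀ ≤ succ κ := hκ.trans (le_succ κ)
  have hκ2 : ℵ₀ ≤ succ (succ κ) := hκ1.trans (le_succ _)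
  obtain ⟨p, q1, q2, hp, hq1, hq2⟩ := exists_pair (succ (succ κ)) hκ2
  have h01 : (0 : Ordinal) < (succ κ).ord := by
    rw [lt_ord, Ordinal.card_zero]
    exact lt_of_lt_of_le aleph0_pos hκ1
  have h02 : (0 : Ordinal) < (succ (succ κ)).ord := by
    rw [lt_ord, Ordinal.card_zero]
    exact lt_of_lt_of_le aleph0_pos hκ2
  have hβ : ∀ a, ∃ β < (succ (succ κ)).ord, ∀ ξ < (succ κ).ord, g a ξ < (succ (succ κ)).ord →
      g a ξ < β := by
    intro a
    have h1 : ({x | ∃ ξ < (succ κ).ord, g a ξ = x ∧ x < (succ (succ κ)).ord} : Set Ordinal) ⊆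
        (fun ξ => g a ξ) '' Iio (succ κ).ord := by
      rintro x ⟨ξ, hξ, rfl, _⟩
      exact ⟨ξ, hξ, rfl⟩
    have h2 : #({x | ∃ ξ < (succ κ).ord, g a ξ = x ∧ x < (succ (succ κ)).ord} : Set Ordinal) ≤
        Cardinal.lift.{1} (succ κ) := by
      refine (mk_le_mk_of_subset h1).trans (mk_image_le.trans ?_)
      rw [mk_Iio_ordinal, card_ord]
    obtain ⟨β, hβ, hβ'⟩ := bdd_of_card (succ κ) hκ1 _ h2 (by rintro x ⟨ξ, _, rfl, h⟩; exact h)
    exact ⟨β, hβ, fun ξ hξ h => hβ' _ ⟨ξ, hξ, rfl, h⟩⟩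
  choose β hβ1 hβ2 using hβ
  have he : ∀ b : Ordinal.{0}, ∃ e : Ordinal.{0} → Ordinal.{0}, b < (succ (succ κ)).ord →
      (∀ x < b, e x < (succ κ).ord) ∧ ∀ x < b, ∀ y < b, e x = e y → x = y := by
    intro b
    by_cases hb : b < (succ (succ κ)).ord
    · obtain ⟨e, he⟩ := exists_inj (succ κ) b (lt_succ_iff.1 (lt_ord.1 hb))
      exact ⟨e, fun _ => he⟩
    · exact ⟨id, fun h => absurd h hb⟩
  choose e he using he
  obtain ⟨h, hh1, hh2⟩ := hD (fun a ξ => if g a ξ < (succ (succ κ)).ord then e (β a) (g a ξ) else 0)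
    (by
      intro a _ ξ hξ
      split_ifs with h
      · exact (he (β a) (hβ1 a)).1 _ (hβ2 a ξ hξ h)
      · exact h01)
  have hia : ∀ a : Ordinal.{0}, ∃ i η : Ordinal.{0}, i < (succ (succ κ)).ord ∧ η < (succ κ).ord ∧
      (a < (succ (succ (succ κ))).ord → ∀ ξ < (succ κ).ord, η ≤ ξ →
        (if g a ξ < (succ (succ κ)).ord then e (β a) (g a ξ) else 0) ≤ h i ξ) := by
    intro a
    by_cases ha : a < (succ (succ (succ κ))).ord
    · obtain ⟨i, hi, η, hη, h1⟩ := hh2 a ha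
      exact ⟨i, η, hi, hη, fun _ => h1⟩
    · exact ⟨0, 0, h02, h01, fun h' => absurd h' ha⟩
  choose i η hi hη hiη using hia
  refine ⟨fun a => p (β a) (i a), η,
    fun j ξ => {x | x < q1 j ∧ ξ < (succ κ).ord ∧ e (q1 j) x ≤ h (q2 j) ξ},
    fun a => (hp _ (hβ1 a) _ (hi a)).1, hη, ?_, ?_⟩
  · intro j ξ
    by_cases hξ : ξ < (succ κ).ord
    · have h1 : h (q2 j) ξ < (succ κ).ord := hh1 _ (hq2 j) ξ hξ
      have h2 : succ (h (q2 j) ξ) < (succ κ).ord := (isSuccLimit_ord hκ1).succ_lt h1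
      have h3 : #(Iio (succ (h (q2 j) ξ))) ≤ Cardinal.lift.{1} κ := by
        rw [mk_Iio_ordinal, lift_le]
        exact lt_succ_iff.1 (lt_ord.1 h2)
      refine le_trans ?_ h3
      refine mk_le_of_injective (f := fun x : ({x | x < q1 j ∧ ξ < (succ κ).ord ∧
        e (q1 j) x ≤ h (q2 j) ξ} : Set Ordinal) =>
        (⟨e (q1 j) x.1, lt_succ_of_le x.2.2.2⟩ : Iio (succ (h (q2 j) ξ)))) ?_
      intro x y hxy
      have h4 : e (q1 j) x.1 = e (q1 j) y.1 := congrArg Subtype.val hxy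
      exact Subtype.ext ((he (q1 j) (hq1 j)).2 _ x.2.1 _ y.2.1 h4)
    · have h1 : ({x | x < q1 j ∧ ξ < (succ κ).ord ∧ e (q1 j) x ≤ h (q2 j) ξ} : Set Ordinal) = ∅ := by
        ext x
        simp [hξ]
      beta_reduce
      rw [h1, mk_eq_zero]
      exact bot_le
  · intro a ha ξ hξ hN hg
    have h1 := hiη a ha ξ hξ hN
    rw [if_pos hg] at h1
    have h2 := hp _ (hβ1 a) _ (hi a)
    refine ⟨?_, hξ, ?_⟩
    · rw [h2.2.1]
      exact hβ2 a ξ hξ hg
    · rw [h2.2.1, h2.2.2]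
      exact h1

theorem main (κ : Cardinal.{0}) (hκ : ℵ₀ ≤ κ) (hD : Dominated κ)
    (hC : ∀ f, Maps (succ (succ (succ κ))) f → ∃ X, ChangSet κ X ∧ ClosedUnder f X)
    (μ : Cardinal.{0}) (hμ : μ.IsRegular) (hμκ : μ ≤ κ)
    (f : Finset Ordinal.{0} → Ordinal.{0}) (hf : Maps (succ (succ (succ κ))) f) :
    ∃ X δ, ChangSet κ X ∧ ClosedUnder f X ∧ X ∩ Iio (succ κ).ord = Iio δ ∧
      Ordinal.cof δ = μ := by
  classical
  have hκ1 : ℵ₀ ≤ succ κ := hκ.trans (le_succ κ)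
  have hκ2 : ℵ₀ ≤ succ (succ κ) := hκ1.trans (le_succ _)
  have hκ3 : ℵ₀ ≤ succ (succ (succ κ)) := hκ2.trans (le_succ _)
  have h12 : (succ κ).ord ≤ (succ (succ κ)).ord := ord_le_ord.2 (le_succ _)
  have h23 : (succ (succ κ)).ord ≤ (succ (succ (succ κ))).ord := ord_le_ord.2 (le_succ _)
  have h03 : (0 : Ordinal) < (succ (succ (succ κ))).ord := by
    rw [lt_ord, Ordinal.card_zero]
    exact lt_of_lt_of_le aleph0_pos hκ3
  obtain ⟨p, p1, p2, hp, hp1, hp2⟩ := exists_pair (succ (succ (succ κ))) hκ3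
  obtain ⟨code, dec, hcode, hdec, hdecm⟩ := exists_fincode (succ (succ (succ κ))) hκ3
  -- surjections of `κ` onto the ordinals below `κ⁺`
  have hS : ∀ α : Ordinal.{0}, ∃ S : Ordinal.{0} → Ordinal.{0},
      (∀ ζ, S ζ < (succ (succ (succ κ))).ord) ∧
      (α < (succ κ).ord → ∀ b < α, ∃ ζ < κ.ord, S ζ = b) := by
    intro α
    by_cases hα : α < (succ κ).ord
    · obtain ⟨e, he1, he2⟩ := exists_inj κ α (lt_succ_iff.1 (lt_ord.1 hα))
      refine ⟨fun ζ => if h : ∃ b < α, e b = ζ then h.choose else 0, ?_, ?_⟩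
      · intro ζ
        dsimp only
        split_ifs with h
        · exact h.choose_spec.1.trans (hα.trans_le (h12.trans h23))
        · exact h03
      · intro _ b hb
        refine ⟨e b, he1 b hb, ?_⟩
        have h : ∃ b' < α, e b' = e b := ⟨b, hb, rfl⟩
        dsimp only
        rw [dif_pos h]
        exact he2 _ h.choose_spec.1 _ hb h.choose_spec.2
    · exact ⟨fun _ => 0, fun _ => h03, fun h => absurd h hα⟩
  choose S hS1 hS2 using hS
  set base : ℕ → Ordinal.{0} → Ordinal.{0} → Ordinal.{0} := fun n =>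
    match n with
    | 0 => p
    | 1 => fun a c => code (insert a (dec c))
    | 2 => fun c _ => f (dec c)
    | 3 => S
    | _ => fun _ _ => code ∅ with hbasedef
  have hbase : ∀ n, ∀ a < (succ (succ (succ κ))).ord, ∀ b < (succ (succ (succ κ))).ord,
      base n a b < (succ (succ (succ κ))).ord := by
    intro n a ha b hb
    match n with
    | 0 => exact (hp a ha b hb).1
    | 1 => exact hcode _
    | 2 => exact hf _ (hdecm a)
    | 3 => exact hS1 a b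
    | (n + 4) => exact hcode _
  choose R N Φ hR hN hΦ hcov using cover κ hκ hD
  have hops : ∀ i, ∀ a < (succ (succ (succ κ))).ord, ∀ b < (succ (succ (succ κ))).ord,
      ops base p1 p2 R N i a b < (succ (succ (succ κ))).ord := by
    rintro (n | t | t) a ha b hb
    · exact hbase n a ha b hb
    · exact (hR _ _).trans_le h23
    · exact (hN _ _).trans_le (h12.trans h23)
  obtain ⟨B, hB⟩ := chang_binary κ hκ hC (ops base p1 p2 R N) hops
  obtain ⟨X, δ, hX, hXδ, hδ⟩ := long hκ hμ hμκ (ops base p1 p2 R N)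
    (extend hκ hbase (fun a _ => hp1 a) (fun a _ => hp2 a) (fun a ha b hb => (hp a ha b hb).2.1)
      (fun a ha b hb => (hp a ha b hb).2.2) hR hN hΦ hcov) (by
      rintro X ⟨hX, hXc⟩ a ha ha1 b hb
      obtain ⟨ζ, hζ, h⟩ := hS2 a ha1 b hb
      rw [← h]
      exact hXc (Sum.inl 3) a ha ζ (hX.2.2.2 hζ)) B hB
  refine ⟨X, δ, hX.1, ?_, hXδ, hδ⟩
  have h0X : (0 : Ordinal) ∈ X := hX.1.2.2.2 (by
    rw [mem_Iio, lt_ord, Ordinal.card_zero]
    exact lt_of_lt_of_le aleph0_pos hκ)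
  have hcodeX : ∀ s : Finset Ordinal.{0}, (∀ a ∈ s, a ∈ X) → code s ∈ X := by
    intro s
    induction s using Finset.induction_on with
    | empty => intro _; exact hX.2 (Sum.inl 4) 0 h0X 0 h0X
    | insert a s ha ih =>
      intro hs
      have h1 := ih (fun b hb => hs b (Finset.mem_insert_of_mem hb))
      have h2 := hX.2 (Sum.inl 1) a (hs a (Finset.mem_insert_self a s)) _ h1
      have h3 : dec (code s) = s := hdec s (fun b hb => hX.1.1 (hs b (Finset.mem_insert_of_mem hb)))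
      have h4 : ops base p1 p2 R N (Sum.inl 1) a (code s) = code (insert a (dec (code s))) := rfl
      rw [h4, h3] at h2
      exact h2
  intro s hs
  have h1 := hX.2 (Sum.inl 2) _ (hcodeX s hs) _ h0X
  have h3 : dec (code s) = s := hdec s (fun b hb => hX.1.1 (hs b hb))
  have h4 : ops base p1 p2 R N (Sum.inl 2) (code s) 0 = f (dec (code s)) := rfl
  rw [h4, h3] at h1
  exact h1

theorem dominated_of_pow (κ : Cardinal.{0}) (hκ : ℵ₀ ≤ κ)
    (h2 : (2 : Cardinal.{0}) ^ (succ κ) = succ (succ κ)) : Dominated κ := by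
  intro g hg
  have hκ1 : ℵ₀ ≤ succ κ := hκ.trans (le_succ κ)
  obtain ⟨E, hE1, hE2⟩ := enum (succ κ) (succ κ) (succ (succ κ))
    (lt_of_lt_of_le aleph0_pos hκ1) (by rw [power_self_eq hκ1, h2])
  refine ⟨E, fun i _ ξ _ => hE1 i ξ, fun a ha => ?_⟩
  obtain ⟨i, hi, h⟩ := hE2 (g a) (hg a ha)
  refine ⟨i, hi, 0, ?_, fun ξ hξ _ => (h ξ hξ).ge⟩
  rw [lt_ord, Ordinal.card_zero]
  exact lt_of_lt_of_le aleph0_pos hκ1

end Pool.Agent.TH994.CC
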