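import Mathlib

set_option autoImplicit false

/-!
Chang sets with prescribed cofinality of the trace on `κ⁺`.
-/

namespace Pool.Agent.TH994.CC

open Cardinal Set Order
open scoped Ordinal

/-- `f` maps finite sets of ordinals below `μ` to ordinals below `μ`. -/
def Maps (μ : Cardinal.{0}) (f : Finset Ordinal.{0} → Ordinal.{0}) : Prop :=
  ∀ s : Finset Ordinal.{0}, (∀ a ∈ s, a < μ.ord) → f s < μ.ord

/-- `X` is closed under `f`. -/
def ClosedUnder (f : Finset Ordinal.{0} → Ordinal.{0}) (X : Set Ordinal.{0}) : Prop :=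
  ∀ s : Finset Ordinal.{0}, (∀ a ∈ s, a ∈ X) → f s ∈ X

/-- `X` is a Chang set for `κ`. -/
def ChangSet (κ : Cardinal.{0}) (X : Set Ordinal.{0}) : Prop :=
  X ⊆ Iio (succ (succ (succ κ))).ord ∧ #X = Cardinal.lift.{1} (succ κ) ∧
  #↥(X ∩ Iio (succ (succ κ)).ord) = Cardinal.lift.{1} κ ∧ Iio κ.ord ⊆ X

theorem enum (μ ν ρ : Cardinal.{0}) (hν : 0 < ν) (h : ν ^ μ ≤ ρ) :
    ∃ E : Ordinal.{0} → Ordinal.{0} → Ordinal.{0}, (∀ a ξ, E a ξ < ν.ord) ∧
      ∀ g : Ordinal.{0} → Ordinal.{0}, (∀ ξ < μ.ord, g ξ < ν.ord) →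
        ∃ a < ρ.ord, ∀ ξ < μ.ord, E a ξ = g ξ := by
  classical
  have hc : #(Iio μ.ord → Iio ν.ord) ≤ #(Iio ρ.ord) := by
    rw [← power_def, mk_Iio_ordinal, mk_Iio_ordinal, mk_Iio_ordinal, card_ord, card_ord, card_ord,
      ← lift_power, lift_le]
    exact h
  obtain ⟨φ⟩ := hc
  have h0 : (0 : Ordinal) < ν.ord := by
    rwa [lt_ord, Ordinal.card_zero]
  have : Nonempty (Iio μ.ord → Iio ν.ord) := ⟨fun _ => ⟨0, h0⟩⟩
  let ψ := Function.invFun φ
  refine ⟨fun a ξ => if h : a < ρ.ord ∧ ξ < μ.ord then (ψ ⟨a, h.1⟩ ⟨ξ, h.2⟩ : Ordinal) else 0,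
    ?_, ?_⟩
  · intro a ξ
    dsimp only
    split_ifs with h1
    · exact (ψ ⟨a, h1.1⟩ ⟨ξ, h1.2⟩).2
    · exact h0
  · intro g hg
    let G : Iio μ.ord → Iio ν.ord := fun ξ => ⟨g ξ, hg ξ ξ.2⟩
    refine ⟨φ G, (φ G).2, fun ξ hξ => ?_⟩
    have hG : ψ (φ G) = G := Function.leftInverse_invFun φ.injective G
    dsimp only
    rw [dif_pos ⟨(φ G).2, hξ⟩]
    change ((ψ (φ G)) ⟨ξ, hξ⟩ : Ordinal) = g ξ
    rw [hG]

theorem haus (μ ν : Cardinal.{0}) (hν : ℵ₀ ≤ ν) (hμν : μ ≤ ν) (h : ν ^ μ ≤ ν) :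
    (succ ν) ^ μ ≤ succ ν := by
  have hT : #(succ ν).ord.ToType = succ ν := mk_ord_toType _
  have hreg : (succ ν).IsRegular := isRegular_succ hν
  have hcof : Order.cof (succ ν).ord.ToType = succ ν := by
    rw [Ordinal.cof_toType, hreg.cof_ord]
  have hb : ∀ g : μ.out → (succ ν).ord.ToType, ∃ b, ∀ x, g x < b := by
    intro g
    by_contra hcon
    push Not at hcon
    have h1 : IsCofinal (range g) := fun b => by
      obtain ⟨x, hx⟩ := hcon b
      exact ⟨g x, ⟨x, rfl⟩, hx⟩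
    have h2 := Order.cof_le h1
    have h3 : #(range g) ≤ μ := mk_range_le.trans (mk_out μ).le
    rw [hcof] at h2
    exact absurd (h2.trans h3) (not_le.2 (lt_of_le_of_lt hμν (lt_succ ν)))
  choose b hb using hb
  have he : ∀ t : (succ ν).ord.ToType, Nonempty ({s // s < t} ↪ ν.out) := by
    intro t
    rw [← Cardinal.le_def, mk_out]
    exact lt_succ_iff.1 (mk_Iio_toType_ord_lt t)
  let e := fun t => Classical.choice (he t)
  have key : ∀ (t t' : (succ ν).ord.ToType) (ht : t = t') (y y' : (succ ν).ord.ToType) (hy : y < t)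
      (hy' : y' < t'), e t ⟨y, hy⟩ = e t' ⟨y', hy'⟩ → y = y' := by
    rintro t _ rfl y y' hy hy' h
    exact congrArg Subtype.val ((e t).injective h)
  have inj : Function.Injective (fun g : μ.out → (succ ν).ord.ToType =>
      ((b g, fun x => e (b g) ⟨g x, hb g x⟩) : (succ ν).ord.ToType × (μ.out → ν.out))) := by
    intro g g' hgg'
    simp only [Prod.mk.injEq] at hgg'
    obtain ⟨h1, h2⟩ := hgg'
    funext x
    exact key _ _ h1 _ _ _ _ (congrFun h2 x)
  have h4 := mk_le_of_injective inj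
  have h5 : #(μ.out → (succ ν).ord.ToType) = (succ ν) ^ μ := by
    rw [← power_def, mk_out, hT]
  have h6 : #((succ ν).ord.ToType × (μ.out → ν.out)) = succ ν * ν ^ μ := by
    rw [mk_prod, Cardinal.lift_id, Cardinal.lift_id, ← power_def, mk_out, mk_out, hT]
  rw [h5, h6] at h4
  have h7 : ℵ₀ ≤ succ ν := hν.trans (le_succ ν)
  calc (succ ν) ^ μ ≤ succ ν * ν ^ μ := h4
    _ ≤ succ ν * succ ν := mul_le_mul' le_rfl (h.trans (le_succ ν))
    _ = succ ν := mul_eq_self h7

theorem chang_countable (κ : Cardinal.{0}) (hκ : ℵ₀ ≤ κ)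
    (hC : ∀ f, Maps (succ (succ (succ κ))) f → ∃ X, ChangSet κ X ∧ ClosedUnder f X)
    {ι : Type} [Countable ι] [Nonempty ι] (F : ι → Finset Ordinal.{0} → Ordinal.{0})
    (hF : ∀ i, Maps (succ (succ (succ κ))) (F i)) :
    ∃ X, ChangSet κ X ∧ ∀ i, ClosedUnder (F i) X := by
  classical
  obtain ⟨g, hg⟩ := exists_surjective_nat (ι × Finset ℕ)
  have hω3 : Ordinal.omega0 ≤ (succ (succ (succ κ))).ord := by
    rw [Cardinal.omega0_le_ord]
    exact hκ.trans ((le_succ κ).trans ((le_succ _).trans (le_succ _)))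
  have hωκ : Ordinal.omega0 ≤ κ.ord := by
    rw [Cardinal.omega0_le_ord]
    exact hκ
  set f : Finset Ordinal.{0} → Ordinal.{0} := fun s =>
    F (g (s.filter (· < Ordinal.omega0)).card).1 ((s.filter (Ordinal.omega0 ≤ ·)) ∪
      (g (s.filter (· < Ordinal.omega0)).card).2.image (fun n : ℕ => (n : Ordinal))) with hfdef
  have hf : Maps (succ (succ (succ κ))) f := by
    intro s hs
    apply hF
    intro a ha
    rw [Finset.mem_union] at ha
    rcases ha with ha | ha
    · exact hs a (Finset.mem_filter.1 ha).1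
    · obtain ⟨n, _, rfl⟩ := Finset.mem_image.1 ha
      exact (Ordinal.natCast_lt_omega0 n).trans_le hω3
  obtain ⟨X, hX, hXf⟩ := hC f hf
  refine ⟨X, hX, fun i t ht => ?_⟩
  have hu : ∃ u : Finset ℕ, u.image (fun n : ℕ => (n : Ordinal)) = t.filter (· < Ordinal.omega0) := by
    have h1 : ((t.filter (· < Ordinal.omega0) : Finset Ordinal) : Set Ordinal) ⊆
        (fun n : ℕ => (n : Ordinal)) '' univ := by
      intro a ha
      obtain ⟨n, hn⟩ := Ordinal.lt_omega0.1 (Finset.mem_filter.1 (Finset.mem_coe.1 ha)).2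
      exact ⟨n, mem_univ _, hn.symm⟩
    obtain ⟨u, _, hu⟩ := Finset.subset_set_image_iff.1 h1
    exact ⟨u, hu⟩
  obtain ⟨u, hu⟩ := hu
  obtain ⟨k, hk⟩ := hg (i, u)
  have key := hXf ((t.filter (Ordinal.omega0 ≤ ·)) ∪
    (Finset.range k).image (fun n : ℕ => (n : Ordinal))) (by
      intro a ha
      rw [Finset.mem_union] at ha
      rcases ha with ha | ha
      · exact ht a (Finset.mem_filter.1 ha).1
      · obtain ⟨n, _, rfl⟩ := Finset.mem_image.1 ha
        exact hX.2.2.2 ((Ordinal.natCast_lt_omega0 n).trans_le hωκ))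
  have h1 : ((t.filter (Ordinal.omega0 ≤ ·)) ∪
      (Finset.range k).image (fun n : ℕ => (n : Ordinal))).filter (· < Ordinal.omega0) =
      (Finset.range k).image (fun n : ℕ => (n : Ordinal)) := by
    ext a
    simp only [Finset.mem_filter, Finset.mem_union, Finset.mem_image, Finset.mem_range]
    constructor
    · rintro ⟨h | h, h'⟩
      · exact absurd h' (not_lt.2 h.2)
      · exact h
    · rintro ⟨n, hn, rfl⟩
      exact ⟨Or.inr ⟨n, hn, rfl⟩, Ordinal.natCast_lt_omega0 n⟩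
  have h2 : ((t.filter (Ordinal.omega0 ≤ ·)) ∪
      (Finset.range k).image (fun n : ℕ => (n : Ordinal))).filter (Ordinal.omega0 ≤ ·) =
      t.filter (Ordinal.omega0 ≤ ·) := by
    ext a
    simp only [Finset.mem_filter, Finset.mem_union, Finset.mem_image, Finset.mem_range]
    constructor
    · rintro ⟨h | ⟨n, hn, rfl⟩, h'⟩
      · exact h
      · exact absurd (Ordinal.natCast_lt_omega0 n) (not_lt.2 h')
    · rintro ⟨h, h'⟩
      exact ⟨Or.inl ⟨h, h'⟩, h'⟩
  have h3 : ((Finset.range k).image (fun n : ℕ => (n : Ordinal.{0}))).card = k := by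
    rw [Finset.card_image_of_injective _ (fun a b h => by exact_mod_cast h), Finset.card_range]
  have h4 : t.filter (Ordinal.omega0 ≤ ·) ∪ u.image (fun n : ℕ => (n : Ordinal)) = t := by
    rw [hu]
    ext a
    simp only [Finset.mem_union, Finset.mem_filter]
    constructor
    · rintro (h | h)
      · exact h.1
      · exact h.1
    · intro h
      rcases lt_or_ge a Ordinal.omega0 with h' | h'
      · exact Or.inr ⟨h, h'⟩
      · exact Or.inl ⟨h, h'⟩
  rw [hfdef] at key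
  simp only [h1, h2, h3, hk, h4] at key
  exact key

end Pool.Agent.TH994.CC
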