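import Pool.Agent.TH994.CC.Basic

set_option autoImplicit false

/-!
Extending Chang sets end-wise.
-/

namespace Pool.Agent.TH994.CC

open Cardinal Set Order
open scoped Ordinal

/-- closed under a family of binary functions. -/
def Cl {ι : Type} (q : ι → Ordinal.{0} → Ordinal.{0} → Ordinal.{0}) (X : Set Ordinal.{0}) : Prop :=
  ∀ i, ∀ a ∈ X, ∀ b ∈ X, q i a b ∈ X

theorem chang_binary (κ : Cardinal.{0}) (hκ : ℵ₀ ≤ κ)
    (hC : ∀ f, Maps (succ (succ (succ κ))) f → ∃ X, ChangSet κ X ∧ ClosedUnder f X)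
    {ι : Type} [Countable ι] [Nonempty ι] (q : ι → Ordinal.{0} → Ordinal.{0} → Ordinal.{0})
    (hq : ∀ i, ∀ a < (succ (succ (succ κ))).ord, ∀ b < (succ (succ (succ κ))).ord,
      q i a b < (succ (succ (succ κ))).ord) :
    ∃ X, ChangSet κ X ∧ Cl q X := by
  classical
  have h3 : (0 : Ordinal) < (succ (succ (succ κ))).ord := by
    rw [lt_ord, Ordinal.card_zero]
    exact lt_of_lt_of_le (lt_of_lt_of_le aleph0_pos hκ)
      ((le_succ κ).trans ((le_succ _).trans (le_succ _)))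
  have hsup : ∀ s : Finset Ordinal.{0}, (∀ a ∈ s, a < (succ (succ (succ κ))).ord) →
      s.sup id < (succ (succ (succ κ))).ord := by
    intro s hs
    rcases s.eq_empty_or_nonempty with rfl | hne
    · simp
    · obtain ⟨i, hi, h⟩ := Finset.exists_mem_eq_sup s hne id
      rw [h]
      exact hs i hi
  have hinf : ∀ s : Finset Ordinal.{0}, (∀ a ∈ s, a < (succ (succ (succ κ))).ord) →
      sInf (s : Set Ordinal) < (succ (succ (succ κ))).ord := by
    intro s hs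
    rcases s.eq_empty_or_nonempty with rfl | hne
    · simp
    · exact hs _ (Finset.mem_coe.1 (csInf_mem (Finset.coe_nonempty.2 hne)))
  obtain ⟨X, hX, hXc⟩ := chang_countable κ hκ hC (ι := ι × Bool)
    (fun i s => if i.2 then q i.1 (sInf (s : Set Ordinal)) (s.sup id)
      else q i.1 (s.sup id) (sInf (s : Set Ordinal))) (by
      rintro ⟨i, b⟩ s hs
      cases b
      · exact hq i _ (hsup s hs) _ (hinf s hs)
      · exact hq i _ (hinf s hs) _ (hsup s hs))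
  refine ⟨X, hX, fun i a ha b hb => ?_⟩
  have hmem : ∀ c ∈ ({a, b} : Finset Ordinal.{0}), c ∈ X := by
    intro c hc
    rcases Finset.mem_insert.1 hc with rfl | hc
    · exact ha
    · rw [Finset.mem_singleton.1 hc]
      exact hb
  rcases le_total a b with h | h
  · have h1 := hXc (i, true) {a, b} hmem
    have h2 : sInf (({a, b} : Finset Ordinal.{0}) : Set Ordinal) = a := by
      rw [Finset.coe_pair, csInf_pair]
      exact inf_eq_left.2 h
    have h3 : ({a, b} : Finset Ordinal.{0}).sup id = b := by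
      rw [Finset.sup_insert, Finset.sup_singleton]
      exact sup_eq_right.2 h
    simp only [if_true, h2, h3] at h1
    exact h1
  · have h1 := hXc (i, false) {a, b} hmem
    have h2 : sInf (({a, b} : Finset Ordinal.{0}) : Set Ordinal) = b := by
      rw [Finset.coe_pair, csInf_pair]
      exact inf_eq_right.2 h
    have h3 : ({a, b} : Finset Ordinal.{0}).sup id = a := by
      rw [Finset.sup_insert, Finset.sup_singleton]
      exact sup_eq_left.2 h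
    simp only [Bool.false_eq_true, if_false, h2, h3] at h1
    exact h1

theorem bounded (κ : Cardinal.{0}) (hκ : ℵ₀ ≤ κ) (X : Set Ordinal.{0})
    (hX : #↥(X ∩ Iio (succ (succ κ)).ord) ≤ Cardinal.lift.{1} κ) :
    ∃ ξ < (succ κ).ord, ∀ a ∈ X, a < (succ κ).ord → a < ξ := by
  set s : Set Ordinal := X ∩ Iio (succ κ).ord with hsdef
  have hs : #s ≤ Cardinal.lift.{1} κ := (mk_le_mk_of_subset (inter_subset_inter_right X
    (Iio_subset_Iio (ord_le_ord.2 (le_succ _))))).trans hX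
  have h1 : #s < (Ordinal.lift.{1} (succ κ).ord).cof := by
    rw [← Ordinal.lift_cof, (isRegular_succ hκ).cof_ord]
    exact hs.trans_lt (lift_lt.2 (lt_succ κ))
  refine ⟨sSup ((· + 1) '' s), Ordinal.sSup_add_one_lt_of_lt_cof h1 (fun i hi => hi.2),
    fun a ha ha1 => ?_⟩
  have hb : BddAbove ((· + 1) '' s) := by
    refine ⟨(succ κ).ord, ?_⟩
    rintro _ ⟨b, hb, rfl⟩
    exact Order.add_one_le_of_lt hb.2
  have h2 : a + 1 ≤ sSup ((· + 1) '' s) := le_csSup hb ⟨a, ⟨ha, ha1⟩, rfl⟩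
  exact (lt_add_one a).trans_le h2

theorem chang_superset {κ : Cardinal.{0}} {X Y : Set Ordinal.{0}} (hX : ChangSet κ X)
    (hXY : X ⊆ Y) (h3 : Y ⊆ Iio (succ (succ (succ κ))).ord)
    (h1 : #Y ≤ Cardinal.lift.{1} (succ κ))
    (h2 : #↥(Y ∩ Iio (succ (succ κ)).ord) ≤ Cardinal.lift.{1} κ) : ChangSet κ Y :=
  ⟨h3, le_antisymm h1 (hX.2.1 ▸ mk_le_mk_of_subset hXY),
    le_antisymm h2 (hX.2.2.1 ▸ mk_le_mk_of_subset (inter_subset_inter_left _ hXY)),
    hX.2.2.2.trans hXY⟩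

/-- terms. -/
inductive Tm : Type
  | par : Tm
  | var : Tm
  | app : ℕ → Tm → Tm → Tm
  | idx : Tm → Tm → Tm
  | bnd : Tm → Tm → Tm
  deriving Countable

/-- evaluation of terms. -/
noncomputable def ev (base : ℕ → Ordinal.{0} → Ordinal.{0} → Ordinal.{0})
    (p1 p2 : Ordinal.{0} → Ordinal.{0})
    (R N : (Ordinal.{0} → Ordinal.{0} → Ordinal.{0}) → Ordinal.{0} → Ordinal.{0}) :
    Tm → Ordinal.{0} → Ordinal.{0} → Ordinal.{0}
  | Tm.par, a, _ => a
  | Tm.var, _, ξ => ξ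
  | Tm.app n t t', a, ξ =>
      base n (ev base p1 p2 R N t (p1 a) ξ) (ev base p1 p2 R N t' (p2 a) ξ)
  | Tm.idx t t', a, ξ => R (ev base p1 p2 R N t) (ev base p1 p2 R N t' a ξ)
  | Tm.bnd t t', a, ξ => N (ev base p1 p2 R N t) (ev base p1 p2 R N t' a ξ)

/-- the operations. -/
noncomputable def ops (base : ℕ → Ordinal.{0} → Ordinal.{0} → Ordinal.{0})
    (p1 p2 : Ordinal.{0} → Ordinal.{0})
    (R N : (Ordinal.{0} → Ordinal.{0} → Ordinal.{0}) → Ordinal.{0} → Ordinal.{0}) :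
    ℕ ⊕ (Tm ⊕ Tm) → Ordinal.{0} → Ordinal.{0} → Ordinal.{0}
  | Sum.inl n => base n
  | Sum.inr (Sum.inl t) => fun a _ => R (ev base p1 p2 R N t) a
  | Sum.inr (Sum.inr t) => fun a _ => N (ev base p1 p2 R N t) a

theorem ev_lt {ν : Ordinal.{0}} {K1 : Ordinal.{0}} (hK1 : K1 ≤ ν)
    {base : ℕ → Ordinal.{0} → Ordinal.{0} → Ordinal.{0}}
    {p1 p2 : Ordinal.{0} → Ordinal.{0}}
    {R N : (Ordinal.{0} → Ordinal.{0} → Ordinal.{0}) → Ordinal.{0} → Ordinal.{0}}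
    (hbase : ∀ n, ∀ a < ν, ∀ b < ν, base n a b < ν) (hp1 : ∀ a < ν, p1 a < ν)
    (hp2 : ∀ a < ν, p2 a < ν) (hR : ∀ g a, R g a < ν) (hN : ∀ g a, N g a < ν) (t : Tm) :
    ∀ a < ν, ∀ ξ < K1, ev base p1 p2 R N t a ξ < ν := by
  induction t with
  | par => intro a ha ξ _; exact ha
  | var => intro a _ ξ hξ; exact hξ.trans_le hK1
  | app n t t' ih ih' =>
    intro a ha ξ hξ
    exact hbase n _ (ih _ (hp1 a ha) ξ hξ) _ (ih' _ (hp2 a ha) ξ hξ)
  | idx t t' ih ih' => intro a ha ξ hξ; exact hR _ _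
  | bnd t t' ih ih' => intro a ha ξ hξ; exact hN _ _

theorem extend {κ : Cardinal.{0}} (hκ : ℵ₀ ≤ κ)
    {base : ℕ → Ordinal.{0} → Ordinal.{0} → Ordinal.{0}}
    {p1 p2 : Ordinal.{0} → Ordinal.{0}}
    {R N : (Ordinal.{0} → Ordinal.{0} → Ordinal.{0}) → Ordinal.{0} → Ordinal.{0}}
    {Φ : (Ordinal.{0} → Ordinal.{0} → Ordinal.{0}) → Ordinal.{0} → Ordinal.{0} → Set Ordinal.{0}}
    (hbase : ∀ n, ∀ a < (succ (succ (succ κ))).ord, ∀ b < (succ (succ (succ κ))).ord,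
      base n a b < (succ (succ (succ κ))).ord)
    (hp1 : ∀ a < (succ (succ (succ κ))).ord, p1 a < (succ (succ (succ κ))).ord)
    (hp2 : ∀ a < (succ (succ (succ κ))).ord, p2 a < (succ (succ (succ κ))).ord)
    (hpair1 : ∀ a < (succ (succ (succ κ))).ord, ∀ b < (succ (succ (succ κ))).ord,
      p1 (base 0 a b) = a)
    (hpair2 : ∀ a < (succ (succ (succ κ))).ord, ∀ b < (succ (succ (succ κ))).ord,
      p2 (base 0 a b) = b)
    (hR : ∀ g a, R g a < (succ (succ κ)).ord) (hN : ∀ g a, N g a < (succ κ).ord)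
    (hΦ : ∀ g i ξ, #(Φ g i ξ) ≤ Cardinal.lift.{1} κ)
    (hcov : ∀ g, ∀ a < (succ (succ (succ κ))).ord, ∀ ξ < (succ κ).ord, N g a ≤ ξ →
      g a ξ < (succ (succ κ)).ord → g a ξ ∈ Φ g (R g a) ξ)
    (X : Set Ordinal.{0}) (hX : ChangSet κ X ∧ Cl (ops base p1 p2 R N) X) :
    ∃ Y, X ⊆ Y ∧ (ChangSet κ Y ∧ Cl (ops base p1 p2 R N) Y) ∧
      ∃ ξ ∈ Y, ξ < (succ κ).ord ∧ ∀ a ∈ X, a < (succ κ).ord → a < ξ := by
  classical
  obtain ⟨hX, hXF⟩ := hX
  obtain ⟨ξ, hξ, hξX⟩ := bounded κ hκ X hX.2.2.1.le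
  have h12 : (succ κ).ord ≤ (succ (succ κ)).ord := ord_le_ord.2 (le_succ _)
  have h23 : (succ (succ κ)).ord ≤ (succ (succ (succ κ))).ord := ord_le_ord.2 (le_succ _)
  have hevlt := ev_lt (h12.trans h23) hbase hp1 hp2 (fun g a => (hR g a).trans_le h23)
    (fun g a => (hN g a).trans_le (h12.trans h23))
  have hXne : ∃ x, x ∈ X := ⟨0, hX.2.2.2 (by
    rw [mem_Iio, lt_ord, Ordinal.card_zero]
    exact lt_of_lt_of_le aleph0_pos hκ)⟩
  set Y : Set Ordinal.{0} := ⋃ t : Tm, (fun a => ev base p1 p2 R N t a ξ) '' X with hY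
  have hmemY : ∀ t a, a ∈ X → ev base p1 p2 R N t a ξ ∈ Y := fun t a ha =>
    mem_iUnion.2 ⟨t, a, ha, rfl⟩
  have hsub : X ⊆ Y := fun a ha => hmemY Tm.par a ha
  refine ⟨Y, hsub, ⟨?_, ?_⟩, ξ, ?_, hξ, hξX⟩
  · refine chang_superset hX hsub ?_ ?_ ?_
    · intro y hy
      obtain ⟨t, a, ha, rfl⟩ := mem_iUnion.1 hy
      exact hevlt t a (hX.1 ha) ξ hξ
    · have h1 := mk_iUnion_le_lift (fun t : Tm => (fun a => ev base p1 p2 R N t a ξ) '' X)
      have h2 : Cardinal.lift.{1} #Tm ≤ Cardinal.lift.{1} (succ κ) := by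
        rw [lift_le]
        exact mk_le_aleph0.trans (hκ.trans (le_succ κ))
      have h3 : (⨆ t : Tm, #((fun a => ev base p1 p2 R N t a ξ) '' X : Set Ordinal)) ≤
          Cardinal.lift.{1} (succ κ) := ciSup_le' (fun t => mk_image_le.trans hX.2.1.le)
      have h4 : ℵ₀ ≤ Cardinal.lift.{1} (succ κ) := by
        rw [aleph0_le_lift]
        exact hκ.trans (le_succ κ)
      calc #Y = Cardinal.lift.{0} #Y := (Cardinal.lift_uzero _).symm
        _ ≤ _ := h1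
        _ ≤ Cardinal.lift.{1} (succ κ) * Cardinal.lift.{1} (succ κ) :=
            mul_le_mul' h2 (by simpa using h3)
        _ = _ := mul_eq_self h4
    · have h4 : ℵ₀ ≤ Cardinal.lift.{1} κ := by
        rw [aleph0_le_lift]
        exact hκ
      have h1 : Y ∩ Iio (succ (succ κ)).ord ⊆ ⋃ t : Tm, ⋃ i : ↥(X ∩ Iio (succ (succ κ)).ord),
          Φ (ev base p1 p2 R N t) i.1 ξ := by
        rintro y ⟨hy, hy2⟩
        obtain ⟨t, a, ha, rfl⟩ := mem_iUnion.1 hy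
        have hRX : R (ev base p1 p2 R N t) a ∈ X := hXF (Sum.inr (Sum.inl t)) a ha a ha
        have hNX : N (ev base p1 p2 R N t) a ∈ X := hXF (Sum.inr (Sum.inr t)) a ha a ha
        refine mem_iUnion.2 ⟨t, mem_iUnion.2 ⟨⟨_, hRX, hR _ _⟩, ?_⟩⟩
        exact hcov _ a (hX.1 ha) ξ hξ (hξX _ hNX (hN _ _)).le hy2
      refine (mk_le_mk_of_subset h1).trans ?_
      have h5 : ∀ t : Tm, #↥(⋃ i : ↥(X ∩ Iio (succ (succ κ)).ord),
          Φ (ev base p1 p2 R N t) i.1 ξ) ≤ Cardinal.lift.{1} κ := by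
        intro t
        refine (mk_iUnion_le _).trans ?_
        calc #↥(X ∩ Iio (succ (succ κ)).ord) * (⨆ i : ↥(X ∩ Iio (succ (succ κ)).ord),
              #(Φ (ev base p1 p2 R N t) i.1 ξ))
            ≤ Cardinal.lift.{1} κ * Cardinal.lift.{1} κ :=
              mul_le_mul' hX.2.2.1.le (ciSup_le' (fun i => hΦ _ _ _))
          _ = _ := mul_eq_self h4
      have h6 := mk_iUnion_le_lift (fun t : Tm => ⋃ i : ↥(X ∩ Iio (succ (succ κ)).ord),
          Φ (ev base p1 p2 R N t) i.1 ξ)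
      have h2 : Cardinal.lift.{1} #Tm ≤ Cardinal.lift.{1} κ := by
        rw [lift_le]
        exact mk_le_aleph0.trans hκ
      have h3 := ciSup_le' h5
      refine (Cardinal.lift_uzero _).symm.le.trans (h6.trans ?_)
      calc _ ≤ Cardinal.lift.{1} κ * Cardinal.lift.{1} κ := mul_le_mul' h2 (by simpa using h3)
        _ = _ := mul_eq_self h4
  · rintro (n | t | t) y hy z hz
    · obtain ⟨t, a, ha, rfl⟩ := mem_iUnion.1 hy
      obtain ⟨t', a', ha', rfl⟩ := mem_iUnion.1 hz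
      have h1 := hmemY (Tm.app n t t') (base 0 a a') (hXF (Sum.inl 0) a ha a' ha')
      simp only [ev, hpair1 a (hX.1 ha) a' (hX.1 ha'), hpair2 a (hX.1 ha) a' (hX.1 ha')] at h1
      exact h1
    · obtain ⟨t', a, ha, rfl⟩ := mem_iUnion.1 hy
      exact hmemY (Tm.idx t t') a ha
    · obtain ⟨t', a, ha, rfl⟩ := mem_iUnion.1 hy
      exact hmemY (Tm.bnd t t') a ha
  · obtain ⟨x, hx⟩ := hXne
    exact hmemY Tm.var x hx

theorem card_union_bound {κ : Cardinal.{0}} {i : Ordinal.{0}} (hi : i.card ≤ κ)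
    {c : Cardinal.{1}} (hc : Cardinal.lift.{1} κ ≤ c) (hc0 : ℵ₀ ≤ c) {B : Set Ordinal.{0}}
    {A : Iio i → Set Ordinal.{0}} (hB : #B ≤ c) (hA : ∀ j, #(A j) ≤ c) :
    #↥(B ∪ ⋃ j, A j) ≤ c := by
  refine (mk_union_le _ _).trans ?_
  have h1 : #↥(⋃ j, A j) ≤ c := by
    refine (mk_iUnion_le A).trans ?_
    have h2 : #(Iio i) ≤ c := by
      rw [mk_Iio_ordinal]
      exact (lift_le.2 hi).trans hc
    have h3 : (⨆ j, #(A j)) ≤ c := ciSup_le' hA
    calc #(Iio i) * (⨆ j, #(A j)) ≤ c * c := mul_le_mul' h2 h3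
      _ = c := mul_eq_self hc0
  calc #B + #↥(⋃ j, A j) ≤ c + c := add_le_add hB h1
    _ = c := add_eq_self hc0

/-- the chain. -/
noncomputable def chain (B : Set Ordinal.{0}) (st : Set Ordinal.{0} → Set Ordinal.{0}) :
    Ordinal.{0} → Set Ordinal.{0} :=
  WellFounded.fix (C := fun _ => Set Ordinal.{0}) (wellFounded_lt (α := Ordinal.{0}))
    (fun i rec => st (B ∪ ⋃ j : Iio i, rec j.1 j.2))

theorem chain_eq (B : Set Ordinal.{0}) (st : Set Ordinal.{0} → Set Ordinal.{0}) (i : Ordinal.{0}) :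
    chain B st i = st (B ∪ ⋃ j : Iio i, chain B st j.1) := by
  rw [chain, WellFounded.fix_eq]

theorem long {κ μ : Cardinal.{0}} (hκ : ℵ₀ ≤ κ) (hμ : μ.IsRegular) (hμκ : μ ≤ κ)
    {ι : Type} (q : ι → Ordinal.{0} → Ordinal.{0} → Ordinal.{0})
    (hext : ∀ X, (ChangSet κ X ∧ Cl q X) →
      ∃ Y, X ⊆ Y ∧ (ChangSet κ Y ∧ Cl q Y) ∧
      ∃ ξ ∈ Y, ξ < (succ κ).ord ∧ ∀ a ∈ X, a < (succ κ).ord → a < ξ)
    (hini : ∀ X, (ChangSet κ X ∧ Cl q X) → ∀ a ∈ X, a < (succ κ).ord → ∀ b < a, b ∈ X)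
    (B : Set Ordinal.{0}) (hB : ChangSet κ B ∧ Cl q B) :
    ∃ X δ, (ChangSet κ X ∧ Cl q X) ∧ X ∩ Iio (succ κ).ord = Iio δ ∧ Ordinal.cof δ = μ := by
  classical
  have hstex : ∀ X : Set Ordinal.{0}, ∃ Y : Set Ordinal.{0},
      (ChangSet κ X ∧ Cl q X) →
      (X ⊆ Y ∧ (ChangSet κ Y ∧ Cl q Y) ∧
      ∃ ξ ∈ Y, ξ < (succ κ).ord ∧ ∀ a ∈ X, a < (succ κ).ord → a < ξ) := by
    intro X
    by_cases h : ChangSet κ X ∧ Cl q X
    · obtain ⟨Y, hY⟩ := hext X h
      exact ⟨Y, fun _ => hY⟩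
    · exact ⟨X, fun h' => absurd h' h⟩
  choose st hst using hstex
  set H := chain B st with hH
  set U : Ordinal.{0} → Set Ordinal.{0} := fun i => B ∪ ⋃ j : Iio i, H j.1 with hU
  have hHU : ∀ i, H i = st (U i) := fun i => chain_eq B st i
  -- induction
  have hgood : ∀ i : Ordinal.{0}, i ≤ μ.ord → (ChangSet κ (U i) ∧ Cl q (U i)) := by
    intro i
    induction i using WellFoundedLT.induction with
    | _ i ih =>
    intro hi
    have hgoodH : ∀ j < i, U j ⊆ H j ∧ (ChangSet κ (H j) ∧ Cl q (H j)) := by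
      intro j hj
      have h1 := hst (U j) (ih j hj (hj.le.trans hi))
      rw [← hHU] at h1
      exact ⟨h1.1, h1.2.1⟩
    have hmono : ∀ j k, j ≤ k → k < i → H j ⊆ H k := by
      intro j k hjk hk
      rcases hjk.eq_or_lt with rfl | hjk
      · exact Subset.rfl
      refine Subset.trans ?_ (hgoodH k hk).1
      intro a ha
      exact Or.inr (mem_iUnion.2 ⟨⟨j, hjk⟩, ha⟩)
    have hic : i.card ≤ κ := by
      have h1 := Ordinal.card_le_card hi
      rw [card_ord] at h1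
      exact h1.trans hμκ
    have hBU : B ⊆ U i := subset_union_left
    have hBH : ∀ j < i, B ⊆ H j := fun j hj =>
      Subset.trans subset_union_left (hgoodH j hj).1
    have hHUi : ∀ j < i, H j ⊆ U i := fun j hj a ha => Or.inr (mem_iUnion.2 ⟨⟨j, hj⟩, ha⟩)
    refine ⟨chang_superset hB.1 hBU ?_ ?_ ?_, ?_⟩
    · rintro a (ha | ha)
      · exact hB.1.1 ha
      · obtain ⟨j, hj⟩ := mem_iUnion.1 ha
        exact (hgoodH j.1 j.2).2.1.1 hj
    · refine card_union_bound hic (lift_le.2 (le_succ κ)) ?_ hB.1.2.1.le ?_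
      · rw [aleph0_le_lift]
        exact hκ.trans (le_succ κ)
      · exact fun j => (hgoodH j.1 j.2).2.1.2.1.le
    · have h1 : U i ∩ Iio (succ (succ κ)).ord = (B ∩ Iio (succ (succ κ)).ord) ∪
          ⋃ j : Iio i, (H j.1 ∩ Iio (succ (succ κ)).ord) := by
        rw [hU]
        simp only [union_inter_distrib_right, iUnion_inter]
      rw [h1]
      refine card_union_bound hic le_rfl ?_ hB.1.2.2.1.le ?_
      · rw [aleph0_le_lift]
        exact hκ
      · exact fun j => (hgoodH j.1 j.2).2.1.2.2.1.le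
    · rintro n a (ha | ha) b (hb | hb)
      · exact hBU (hB.2 n a ha b hb)
      · obtain ⟨⟨j, hj⟩, hb⟩ := mem_iUnion.1 hb
        exact hHUi j hj ((hgoodH j hj).2.2 n a (hBH j hj ha) b hb)
      · obtain ⟨⟨j, hj⟩, ha⟩ := mem_iUnion.1 ha
        exact hHUi j hj ((hgoodH j hj).2.2 n a ha b (hBH j hj hb))
      · obtain ⟨⟨j, hj⟩, ha⟩ := mem_iUnion.1 ha
        obtain ⟨⟨k, hk⟩, hb⟩ := mem_iUnion.1 hb
        rcases le_total j k with h | h
        · exact hHUi k hk ((hgoodH k hk).2.2 n a (hmono j k h hk ha) b hb)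
        · exact hHUi j hj ((hgoodH j hj).2.2 n a ha b (hmono k j h hj hb))
  -- the points
  have hlim : IsSuccLimit μ.ord := isSuccLimit_ord hμ.aleph0_le
  have hpt : ∀ j : Iio μ.ord, ∃ ξ ∈ H j.1, ξ < (succ κ).ord ∧ ∀ a ∈ U j.1, a < (succ κ).ord → a < ξ := by
    intro j
    have h1 := hst (U j.1) (hgood j.1 j.2.le)
    rw [← hHU] at h1
    exact h1.2.2
  choose ξ hξH hξ1 hξU using hpt
  have hHU' : ∀ j k : Ordinal.{0}, j < k → H j ⊆ U k := fun j k hjk a ha =>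
    Or.inr (mem_iUnion.2 ⟨⟨j, hjk⟩, ha⟩)
  have hmonoξ : StrictMono ξ := by
    intro j k hjk
    exact hξU k (ξ j) (hHU' j.1 k.1 hjk (hξH j)) (hξ1 j)
  refine ⟨U μ.ord, ⨆ j, ξ j, hgood μ.ord le_rfl, ?_, ?_⟩
  · have hbdd : BddAbove (range ξ) := ⟨(succ κ).ord, by rintro _ ⟨j, rfl⟩; exact (hξ1 j).le⟩
    ext a
    constructor
    · rintro ⟨ha, ha1⟩
      rcases ha with ha | ha
      · have h0 : (0 : Ordinal) < μ.ord := hμ.ord_pos
        have h1 : a < ξ ⟨0, h0⟩ := hξU ⟨0, h0⟩ a (Or.inl ha) ha1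
        exact h1.trans_le (le_ciSup hbdd _)
      · obtain ⟨⟨j, hj⟩, ha⟩ := mem_iUnion.1 ha
        have h0 : succ j < μ.ord := hlim.succ_lt hj
        have h1 : a < ξ ⟨succ j, h0⟩ := hξU ⟨succ j, h0⟩ a (hHU' j _ (lt_succ j) ha) ha1
        exact h1.trans_le (le_ciSup hbdd _)
    · intro ha
      have h0 : Nonempty (Iio μ.ord) := ⟨⟨0, hμ.ord_pos⟩⟩
      obtain ⟨j, hj⟩ := exists_lt_of_lt_ciSup (show a < ⨆ j, ξ j from ha)
      have h1 : ξ j ∈ U μ.ord := hHU' j.1 _ j.2 (hξH j)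
      exact ⟨hini _ (hgood μ.ord le_rfl) _ h1 (hξ1 j) a hj, hj.trans (hξ1 j)⟩
  · rw [Ordinal.cof_iSup_Iio hmonoξ hlim.isSuccPrelimit, hμ.cof_ord]

end Pool.Agent.TH994.CC
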